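import Mathlib

namespace Pool.Agent.H.MP_845e99_co

variable {V : Type}

def ori (px py : V → ℤ) (a b c : V) : ℤ :=
  (px b - px a) * (py c - py a) - (py b - py a) * (px c - px a)

def Ok (px py : V → ℤ) (u v x y : V) : Prop :=
  0 < ori px py u v x * ori px py u v y ∨ 0 < ori px py x y u * ori px py x y v ∨
    (ori px py u v x = 0 ∧ ori px py u v y ≠ 0) ∨ (ori px py u v y = 0 ∧ ori px py u v x ≠ 0)

instance (px py : V → ℤ) (u v x y : V) : Decidable (Ok px py u v x y) := by
  unfold Ok; infer_instance

theorem ori_swap (px py : V → ℤ) (a b c : V) : ori px py b a c = -ori px py a b c := by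
  unfold ori; ring

theorem Ok.swap1 {px py : V → ℤ} {u v x y : V} (h : Ok px py u v x y) : Ok px py v u x y := by
  unfold Ok at h ⊢
  rw [ori_swap px py u v x, ori_swap px py u v y, neg_mul_neg, mul_comm (ori px py x y v)]
  simpa using h

theorem Ok.swap2 {px py : V → ℤ} {u v x y : V} (h : Ok px py u v x y) : Ok px py u v y x := by
  unfold Ok at h ⊢
  rw [ori_swap px py x y u, ori_swap px py x y v, neg_mul_neg, mul_comm (ori px py u v y)]
  tauto

noncomputable def pt (px py : V → ℤ) (u : V) : ℝ × ℝ := ((px u : ℝ), (py u : ℝ))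

noncomputable def seg (px py : V → ℤ) (u v : V) (t : unitInterval) : ℝ × ℝ :=
  ((px u : ℝ) + t * (px v - px u), (py u : ℝ) + t * (py v - py u))

theorem seg_line (px py : V → ℤ) (u v x y : V) (t r : unitInterval)
    (h : seg px py u v t = seg px py x y r) :
    (1 - (r : ℝ)) * (ori px py u v x : ℝ) + r * (ori px py u v y : ℝ) = 0 := by
  have h1 := congrArg Prod.fst h
  have h2 := congrArg Prod.snd h
  simp only [seg] at h1 h2
  simp only [ori]
  push_cast
  linear_combination ((py v : ℝ) - py u) * h1 - ((px v : ℝ) - px u) * h2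

theorem no_pos {a b : ℤ} (r : unitInterval) (h : (1 - (r : ℝ)) * (a : ℝ) + r * (b : ℝ) = 0)
    (hab : 0 < a * b) : False := by
  have h0 := r.2.1
  have h1 := r.2.2
  rcases pos_and_pos_or_neg_and_neg_of_mul_pos hab with ⟨ha, hb⟩ | ⟨ha, hb⟩
  · have ha' : (1 : ℝ) ≤ a := by exact_mod_cast ha
    have hb' : (1 : ℝ) ≤ b := by exact_mod_cast hb
    nlinarith
  · have ha' : (a : ℝ) ≤ -1 := by exact_mod_cast Int.le_sub_one_of_lt ha
    have hb' : (b : ℝ) ≤ -1 := by exact_mod_cast Int.le_sub_one_of_lt hb
    nlinarith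

theorem drawing (L : List (V × V)) (px py : V → ℤ)
    (hinj : ∀ a b, px a = px b → py a = py b → a = b)
    (h1 : ∀ e ∈ L, ∀ w, w = e.1 ∨ w = e.2 ∨ ori px py e.1 e.2 w ≠ 0)
    (h2 : ∀ e ∈ L, ∀ f ∈ L, e = f ∨ Ok px py e.1 e.2 f.1 f.2) :
    ∃ (p : V → ℝ × ℝ) (γ : V → V → unitInterval → ℝ × ℝ),
      Function.Injective p ∧
      (∀ u v, (SimpleGraph.fromRel fun a b => (a, b) ∈ L).Adj u v →
        Continuous (γ u v) ∧ Function.Injective (γ u v) ∧
        γ u v 0 = p u ∧ γ u v 1 = p v ∧
        (∀ w t, γ u v t = p w → t = 0 ∨ t = 1)) ∧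
      (∀ u v x y, (SimpleGraph.fromRel fun a b => (a, b) ∈ L).Adj u v →
        (SimpleGraph.fromRel fun a b => (a, b) ∈ L).Adj x y → s(u, v) ≠ s(x, y) →
        ∀ t r, γ u v t = γ x y r → t = 0 ∨ t = 1) := by
  have s0 : ∀ u v, seg px py u v 0 = pt px py u := by intro u v; simp [seg, pt]
  have s1 : ∀ u v, seg px py u v 1 = pt px py v := by intro u v; simp [seg, pt]
  have inj : ∀ u v, u ≠ v → Function.Injective (seg px py u v) := by
    intro u v huv t r h
    have e1 := congrArg Prod.fst h
    have e2 := congrArg Prod.snd h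
    simp only [seg] at e1 e2
    by_contra htr
    have hne : (t : ℝ) - r ≠ 0 := fun h => htr (Subtype.ext (sub_eq_zero.1 h))
    have a1 : ((t : ℝ) - r) * (px v - px u) = 0 := by linear_combination e1
    have a2 : ((t : ℝ) - r) * (py v - py u) = 0 := by linear_combination e2
    have b1 := (mul_eq_zero.1 a1).resolve_left hne
    have b2 := (mul_eq_zero.1 a2).resolve_left hne
    exact huv (hinj _ _ (by exact_mod_cast (sub_eq_zero.1 b1).symm)
      (by exact_mod_cast (sub_eq_zero.1 b2).symm))
  have vert : ∀ u v, (SimpleGraph.fromRel fun a b => (a, b) ∈ L).Adj u v →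
      ∀ w t, seg px py u v t = pt px py w → t = 0 ∨ t = 1 := by
    intro u v huv w t h
    rw [SimpleGraph.fromRel_adj] at huv
    have key : w = u ∨ w = v ∨ ori px py u v w ≠ 0 := by
      rcases huv.2 with h' | h'
      · exact h1 _ h' w
      · rcases h1 _ h' w with h'' | h'' | h''
        · exact Or.inr (Or.inl h'')
        · exact Or.inl h''
        · refine Or.inr (Or.inr ?_)
          rw [ori_swap]; simpa using h''
    rcases key with rfl | rfl | k
    · exact Or.inl (inj _ _ huv.1 (h.trans (s0 _ _).symm))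
    · exact Or.inr (inj _ _ huv.1 (h.trans (s1 _ _).symm))
    · have := seg_line px py u v w w t 0 (h.trans (s0 w w).symm)
      simp at this
      exact absurd this k
  refine ⟨pt px py, seg px py, ?_, ?_, ?_⟩
  · intro a b h
    have e1 := congrArg Prod.fst h
    have e2 := congrArg Prod.snd h
    simp only [pt] at e1 e2
    exact hinj _ _ (by exact_mod_cast e1) (by exact_mod_cast e2)
  · intro u v huv
    refine ⟨?_, inj _ _ huv.ne, s0 _ _, s1 _ _, vert u v huv⟩
    unfold seg
    fun_prop
  · intro u v x y huv hxy hne t r h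
    have ok : Ok px py u v x y := by
      rw [SimpleGraph.fromRel_adj] at huv hxy
      rcases huv.2 with a | a <;> rcases hxy.2 with b | b
      · rcases h2 _ a _ b with c | c
        · simp only [Prod.mk.injEq] at c
          exact absurd (by rw [c.1, c.2]) hne
        · exact c
      · rcases h2 _ a _ b with c | c
        · simp only [Prod.mk.injEq] at c
          exact absurd (by rw [c.1, c.2, Sym2.eq_swap]) hne
        · exact c.swap2
      · rcases h2 _ a _ b with c | c
        · simp only [Prod.mk.injEq] at c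
          exact absurd (by rw [← c.1, ← c.2, Sym2.eq_swap]) hne
        · exact c.swap1
      · rcases h2 _ a _ b with c | c
        · simp only [Prod.mk.injEq] at c
          exact absurd (by rw [c.1, c.2]) hne
        · exact c.swap1.swap2
    have l1 := seg_line px py u v x y t r h
    have l2 := seg_line px py x y u v r t h.symm
    rcases ok with c | c | ⟨c, d⟩ | ⟨c, d⟩
    · exact (no_pos r l1 c).elim
    · exact (no_pos t l2 c).elim
    · rw [c] at l1
      have hr : (r : ℝ) = 0 := by
        have d' : (ori px py u v y : ℝ) ≠ 0 := by exact_mod_cast d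
        simpa [d'] using l1
      have : r = 0 := Subtype.ext hr
      rw [this, s0] at h
      exact vert u v huv x t h
    · rw [c] at l1
      have hr : (r : ℝ) = 1 := by
        have d' : (ori px py u v x : ℝ) ≠ 0 := by exact_mod_cast d
        have : (1 - (r : ℝ)) * (ori px py u v x : ℝ) = 0 := by simpa using l1
        have := (mul_eq_zero.1 this).resolve_right d'
        linarith
      have : r = 1 := Subtype.ext hr
      rw [this, s1] at h
      exact vert u v huv y t h

end Pool.Agent.H.MP_845e99_co
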